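import Mathlib
import Pool.Agent.N988.EA.Defs

/-!
# Dynamics of the Edwards-Anderson model on hierarchical lattices: definitions

The lattices `H n` (edges `Edge b n`, vertices `Pt b n`) and `act`, minus the energy times the
inverse temperature, are defined in `Pool.Agent.N988.EA.Defs`.
-/

open MeasureTheory
open Pool.Agent.N988.EA

namespace Pool.Agent.N988.ED

noncomputable section

/-- The Boltzmann weight of a configuration of all vertices of `H n` (free boundary conditions). -/
def wt {b n : ℕ} (J : Edge b n → ℝ) (σ : Pt b n → Bool) : ℝ :=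
  Real.exp (act J (fun t => σ (.inl t)) (fun x => σ (.inr x)))

/-- The Gibbs distribution of `H n`. -/
def gib {b n : ℕ} (J : Edge b n → ℝ) (σ : Pt b n → Bool) : ℝ :=
  wt J σ / ∑ s : Pt b n → Bool, wt J s

/-- `M` is the transition matrix of a Markov chain on the configurations of `H n`, reversible with
respect to the Gibbs distribution, which never changes the spins of both ends of `H n` in one
step. -/
structure IsDyn {b n : ℕ} (J : Edge b n → ℝ)
    (M : Matrix (Pt b n → Bool) (Pt b n → Bool) ℝ) : Prop where
  nonneg : ∀ σ s, 0 ≤ M σ s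
  total : ∀ σ, ∑ s, M σ s = 1
  reversible : ∀ σ s, gib J σ * M σ s = gib J s * M s σ
  ends : ∀ σ s, s (.inl false) ≠ σ (.inl false) → s (.inl true) ≠ σ (.inl true) → M σ s = 0

/-- The Glauber (heat-bath) dynamics: the spin of a uniformly chosen vertex is resampled given the
other spins. -/
def glauber {b n : ℕ} (J : Edge b n → ℝ) : Matrix (Pt b n → Bool) (Pt b n → Bool) ℝ := fun σ s =>
  (∑ v : Pt b n, if ∀ x, x ≠ v → s x = σ x then
    wt J s / (wt J (Function.update σ v true) + wt J (Function.update σ v false)) else 0) /
      Fintype.card (Pt b n)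

/-- After `t` steps the total variation distance to the Gibbs distribution is at most `1 / 4`, for
all initial configurations. -/
def Mixed {b n : ℕ} (J : Edge b n → ℝ) (M : Matrix (Pt b n → Bool) (Pt b n → Bool) ℝ)
    (t : ℕ) : Prop :=
  ∀ σ, (∑ s, |(M ^ t) σ s - gib J s|) / 2 ≤ 1 / 4

end

end Pool.Agent.N988.ED
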