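import Mathlib
import Pool.Agent.N988.ED.Defs
import Pool.Agent.N988.EA.Stm

/-!
# Slow mixing on hierarchical lattices: statements of the parts
-/

open MeasureTheory Set Filter
open scoped ENNReal Topology
open Pool.Agent.N988.EA

namespace Pool.Agent.N988.ED

noncomputable section

/-- D1, S_GLA: the Glauber dynamics is a reversible dynamics. Proof: `M σ s ≠ 0` only if `s = σ` or
`s = update σ v (!(σ v))` for one vertex `v`; detailed balance: both sides are
`wt σ wt s / (wt σ + wt s)` up to the same factor; total: for each `v` the sum over the two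
configurations which agree with `σ` off `v` is `1`; `Fintype.card (Pt b n) ≠ 0` (two ends). -/
def S_GLA : Prop := ∀ (b n : ℕ) (J : Edge b n → ℝ), IsDyn J (glauber J)

/-- D2, S_BOT (bottleneck; from the first part of `S_G` of `Pool.Agent.N988.EA.Stm`:
`Z J τ = C * exp (K n J * sg τ₀ * sg τ₁)`). Proof: let `A = {σ | σ (.inl false) = true}`, and `U` the
set of the configurations with `K * sg σ₀ * sg σ₁ ≤ 0`, if `K ≠ 0` (for `K = 0` the claim is
`1 / 8 ≤ t`; then `t = 0` is impossible, because `M ^ 0 = 1` and `gib` has no atom of mass `3/4`, so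
prove `t ≥ 1` in general). The Gibbs probability of `A` is `1 / 2` (flip), the one of `U` is
`exp (-|K|) / (exp |K| + exp (-|K|)) ≤ exp (-2 |K|)` (sum `Z J τ` over the four `τ`). A transition
from `A` to its complement changes the left end, hence not the right end, so it starts or ends in
`U`; by reversibility `F = ∑ σ ∈ A, ∑ s ∉ A, gib σ M σ s ≤ gib U`. By induction on `t`,
`∑ σ ∈ A, ∑ s ∉ A, gib σ (M ^ t) σ s ≤ t F`. If `Mixed J M t` then for every `σ`,
`∑ s ∉ A, (M ^ t) σ s ≥ gib Aᶜ - 1 / 4 = 1 / 4`, so `1 / 8 ≤ t F ≤ t exp (-2 |K|)`. -/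
def S_BOT : Prop := ∀ (b n : ℕ) (J : Edge b n → ℝ) (M : Matrix (Pt b n → Bool) (Pt b n → Bool) ℝ),
  IsDyn J M → ∀ t : ℕ, Mixed J M t → Real.exp (2 * |K n J|) / 8 ≤ t

/-- D3, S_GRW (growth; from `S_WIN`, `S_H` of `Pool.Agent.N988.EA.Stm`). Proof: `S_WIN` for the law
of `β J` and `R = R₀` (or larger), `β₀` such that the windows of `β J` of length `R₀` have
probability at most `1 / 2` for `β ≥ β₀` (as in the proof of `S_GAP2`,
`Pool/Agent/N988/EA/Gap2.lean`). The interval `[-g, g]` is covered by at most `2 g / (c R) + 2`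
windows, so with `g = r ^ (-n / 2)` (real power) the probability of `|K n| ≤ g` tends to `0`. The
number of the vertices is at most `(4 b) ^ (n + 1)`, so its power `ε` is less than
`2 g - log 8` for large `n`, if `ε` is small. -/
def S_GRW : Prop := ∀ (b : ℕ), 4 ≤ b → ∀ (μ : Measure ℝ) [IsProbabilityMeasure μ],
  μ.map (fun x => -x) = μ → ∀ r : ℝ, 0 < r → (∀ x, μ (Ico x (x + r)) ≤ 1 / 2) →
  ∃ β₀ ε : ℝ, 0 < β₀ ∧ 0 < ε ∧ ∀ β : ℝ, β₀ ≤ β →
    Tendsto (fun n : ℕ => (Measure.pi fun _ : Edge b n => μ)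
      {J | Real.exp ((Fintype.card (Pt b n) : ℝ) ^ ε) ≤
        Real.exp (2 * |K n (fun e => β * J e)|) / 8}) atTop (𝓝 1)

/-- The result. -/
def S_SM : Prop :=
  (∀ (b n : ℕ) (J : Edge b n → ℝ), IsDyn J (glauber J)) ∧
  ∀ (b : ℕ), 4 ≤ b → ∀ (μ : Measure ℝ) [IsProbabilityMeasure μ],
  μ.map (fun x => -x) = μ → ∀ r : ℝ, 0 < r → (∀ x, μ (Ico x (x + r)) ≤ 1 / 2) →
  ∃ β₀ ε : ℝ, 0 < β₀ ∧ 0 < ε ∧ ∀ β : ℝ, β₀ ≤ β →
    Tendsto (fun n : ℕ => (Measure.pi fun _ : Edge b n => μ)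
      {J | ∀ M, IsDyn (fun e => β * J e) M → ∀ t : ℕ,
        (t : ℝ) < Real.exp ((Fintype.card (Pt b n) : ℝ) ^ ε) → ¬ Mixed (fun e => β * J e) M t})
      atTop (𝓝 1)

theorem t_SM (h1 : S_GLA) (h2 : S_BOT) (h3 : S_GRW) : S_SM := by
  refine ⟨h1, fun b hb μ _ hs r hr hw => ?_⟩
  obtain ⟨β₀, ε, hβ, hε, h⟩ := h3 b hb μ hs r hr hw
  refine ⟨β₀, ε, hβ, hε, fun β hβ' => ?_⟩
  refine tendsto_of_tendsto_of_tendsto_of_le_of_le (h β hβ') tendsto_const_nhds ?_ ?_
  · intro n
    refine measure_mono fun J hJ M hM t ht hmix => ?_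
    have h4 := h2 b n _ M hM t hmix
    have h5 : Real.exp ((Fintype.card (Pt b n) : ℝ) ^ ε) ≤
      Real.exp (2 * |K n (fun e => β * J e)|) / 8 := hJ
    linarith
  · intro n
    exact prob_le_one

end

end Pool.Agent.N988.ED
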