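import Mathlib
import Pool.Agent.N988.ED.Defs

/-!
# Heat-bath dynamics with blocks
-/

open MeasureTheory
open Pool.Agent.N988.EA

namespace Pool.Agent.N988.ED

noncomputable section

open Classical in
/-- The heat-bath dynamics with the blocks `B i`: a block is chosen uniformly and the spins of its
vertices are resampled given the other spins. For the blocks with one vertex it is the Glauber
dynamics. -/
def heatbath {b n : ℕ} (J : Edge b n → ℝ) {ι : Type} [Fintype ι] (B : ι → Set (Pt b n)) :
    Matrix (Pt b n → Bool) (Pt b n → Bool) ℝ := fun σ s =>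
  (∑ i, if ∀ x, x ∉ B i → s x = σ x then
    wt J s / ∑ s' : Pt b n → Bool, (if ∀ x, x ∉ B i → s' x = σ x then wt J s' else 0) else 0) /
      Fintype.card ι

lemma wt_pos {b n : ℕ} (J : Edge b n → ℝ) (σ : Pt b n → Bool) : 0 < wt J σ := Real.exp_pos _

theorem isDyn_heatbath {b n : ℕ} (J : Edge b n → ℝ) {ι : Type} [Fintype ι] [Nonempty ι]
    (B : ι → Set (Pt b n)) (hB : ∀ i, Sum.inl false ∉ B i ∨ Sum.inl true ∉ B i) :
    IsDyn J (heatbath J B) := by
  classical
  have hZ : ∀ (i : ι) (σ : Pt b n → Bool),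
      0 < ∑ s' : Pt b n → Bool, (if ∀ x, x ∉ B i → s' x = σ x then wt J s' else 0) := by
    intro i σ
    refine Finset.sum_pos' (fun s' _ => ?_) ⟨σ, Finset.mem_univ _, ?_⟩
    · split_ifs
      · exact (wt_pos J s').le
      · exact le_rfl
    · rw [if_pos (fun x _ => rfl)]
      exact wt_pos J σ
  have hc : (0 : ℝ) < Fintype.card ι := by exact_mod_cast Fintype.card_pos
  refine ⟨fun σ s => ?_, fun σ => ?_, fun σ s => ?_, fun σ s h1 h2 => ?_⟩
  · refine div_nonneg (Finset.sum_nonneg fun i _ => ?_) hc.le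
    split_ifs
    · exact div_nonneg (wt_pos J s).le (hZ i σ).le
    · exact le_rfl
  · unfold heatbath
    rw [← Finset.sum_div, Finset.sum_comm]
    have h1 : ∀ i : ι, ∑ s : Pt b n → Bool, (if ∀ x, x ∉ B i → s x = σ x then
        wt J s / ∑ s' : Pt b n → Bool, (if ∀ x, x ∉ B i → s' x = σ x then wt J s' else 0)
          else 0) = 1 := by
      intro i
      have h2 : ∀ s : Pt b n → Bool, (if ∀ x, x ∉ B i → s x = σ x then
        wt J s / ∑ s' : Pt b n → Bool, (if ∀ x, x ∉ B i → s' x = σ x then wt J s' else 0)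
          else 0) = (if ∀ x, x ∉ B i → s x = σ x then wt J s else 0) /
            ∑ s' : Pt b n → Bool, (if ∀ x, x ∉ B i → s' x = σ x then wt J s' else 0) := by
        intro s
        split_ifs
        · rfl
        · rw [zero_div]
      rw [Finset.sum_congr rfl fun s _ => h2 s, ← Finset.sum_div]
      exact div_self (hZ i σ).ne'
    rw [Finset.sum_congr rfl fun i _ => h1 i]
    rw [Finset.sum_const, Finset.card_univ, nsmul_eq_mul, mul_one]
    exact div_self hc.ne'
  · unfold heatbath gib
    rw [← mul_div_assoc, ← mul_div_assoc]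
    congr 1
    rw [Finset.mul_sum, Finset.mul_sum]
    refine Finset.sum_congr rfl fun i _ => ?_
    by_cases h : ∀ x, x ∉ B i → s x = σ x
    · have h' : ∀ x, x ∉ B i → σ x = s x := fun x hx => (h x hx).symm
      rw [if_pos h, if_pos h']
      have h3 : (∑ s' : Pt b n → Bool, (if ∀ x, x ∉ B i → s' x = σ x then wt J s' else 0)) =
          ∑ s' : Pt b n → Bool, (if ∀ x, x ∉ B i → s' x = s x then wt J s' else 0) := by
        refine Finset.sum_congr rfl fun s' _ => ?_
        congr 1
        refine propext ⟨fun h4 x hx => ?_, fun h4 x hx => ?_⟩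
        · rw [h4 x hx, h x hx]
        · rw [h4 x hx, h x hx]
      rw [h3]
      ring
    · have h' : ¬ ∀ x, x ∉ B i → σ x = s x := fun h5 => h fun x hx => (h5 x hx).symm
      rw [if_neg h, if_neg h', mul_zero, mul_zero]
  · unfold heatbath
    have h3 : ∀ i : ι, ¬ ∀ x, x ∉ B i → s x = σ x := by
      intro i h4
      rcases hB i with h5 | h5
      · exact h1 (h4 _ h5)
      · exact h2 (h4 _ h5)
    rw [Finset.sum_congr rfl fun i _ => if_neg (h3 i)]
    simp

end

end Pool.Agent.N988.ED
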