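import Pool.Agent.N988.ED.Stm
import Pool.Agent.N56.ED_GLA
import Pool.Agent.N897.ED_BOT
import Pool.Agent.N360.ED_GRW

/-!
# Slow mixing on hierarchical lattices: assembly
-/

namespace Pool.Agent.N988.ED

theorem k_SM : S_SM :=
  t_SM Pool.Agent.N56.ED.t_GLA Pool.Agent.N897.ED.t_BOT Pool.Agent.N360.ED.t_GRW

end Pool.Agent.N988.ED
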